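import Mathlib
import Pool.Agent.R365.RC.Q

set_option autoImplicit false

namespace Pool.Agent.Results.MP_4d5ce1_nt.ExceptionsByCounting

open NumberField IsDedekindDomain Filter Topology

/-- the absolute logarithmic height of the point `[x : 1]` -/
noncomputable def height {K : Type} [Field K] [NumberField K] (x : K) : ℝ :=
  (∑ w : InfinitePlace K, (w.mult : ℝ) * Real.log (max (w x) (w 1)) +
    ∑ᶠ v : HeightOneSpectrum (RingOfIntegers K),
      Real.log (max (FinitePlace.mk v x) (FinitePlace.mk v 1))) /
    (Module.finrank ℚ K : ℝ)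

/-- the truncated counting function of the point `[x : 1]` with respect to the points
`[(α l).1 : (α l).2]`: the sum over the primes outside `T` and over `l` of the truncated local
heights -/
noncomputable def counting {K : Type} [Field K] [NumberField K]
    (T : Set (HeightOneSpectrum (RingOfIntegers K))) {q : ℕ} (α : Fin q → K × K) (x : K) : ℝ :=
  ∑ᶠ (v : HeightOneSpectrum (RingOfIntegers K)) (_ : v ∉ T),
    ∑ l : Fin q,
      min
        (Real.log
            (max (FinitePlace.mk v x) (FinitePlace.mk v 1) *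
              max (FinitePlace.mk v (α l).1) (FinitePlace.mk v (α l).2) /
              FinitePlace.mk v (x * (α l).2 - 1 * (α l).1)) /
          (Module.finrank ℚ K : ℝ))
        (Real.log (Ideal.absNorm v.asIdeal : ℝ) / (Module.finrank ℚ K : ℝ))

/-- the set of the `x ∈ K`, different from the `α_l`, with `N(x) ≤ log X` and
`M N(x) ≤ h(x) ≤ A log X`, where `N(x) = ∑_{v ∉ T} ∑_l λ^(1)_v(α_l, x)` -/
def exceptional {K : Type} [Field K] [NumberField K]
    (T : Set (HeightOneSpectrum (RingOfIntegers K))) {q : ℕ} (α : Fin q → K × K)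
    (M A X : ℝ) : Set K :=
  {x : K | (∀ l, x * (α l).2 - 1 * (α l).1 ≠ 0) ∧ Real.exp (counting T α x) ≤ X ∧
    M * counting T α x ≤ height x ∧ height x ≤ A * Real.log X}

/-- the exponent -/
noncomputable def E (q : ℕ) (M : ℝ) : ℝ :=
  max (1 - (q - 2) * M)
    (if M ≤ 9 / (5 * q) then 9 / (5 * q)
      else if M ≤ 27 / (14 * q) then 3 / q - 2 * M / 3
      else 12 / (7 * q))

open Pool.Agent.R365.RC Pool.Agent.H691R3 in
/-- Let `K` be a number field of degree `d`, `T` a finite set of primes, `α_1, …, α_q` (`q ≥ 3`)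
distinct points of the projective line over `K`, and `1/q ≤ M ≤ A`. Let `N_T(x)` be the truncated
counting function and `N(X)` the number of the `x ∈ K`, different from the `α_l`, with
`exp N_T(x) ≤ X` and `M N_T(x) ≤ h(x) ≤ A log X`.
(1) `N(X)` is finite and `O(X ^ (d E(q, M) + δ))` for every `δ > 0`.
(2) If `M ≤ (5 q - 9) / (5 q (q - 2))`, then `N(X) = X ^ (d (1 - (q - 2) M) + o(1))`. -/
theorem result :
    ∀ (K : Type) [Field K] [NumberField K]
      (T : Set (HeightOneSpectrum (RingOfIntegers K))), T.Finite →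
      ∀ (q : ℕ), 3 ≤ q → ∀ (α : Fin q → K × K),
        (∀ i, α i ≠ 0) →
        (∀ i j, i ≠ j → (α i).1 * (α j).2 - (α i).2 * (α j).1 ≠ 0) →
        ∀ M A : ℝ, 1 / (q : ℝ) ≤ M → M ≤ A →
          (∀ δ : ℝ, 0 < δ → ∃ C : ℝ, ∀ X : ℝ, 1 ≤ X → (exceptional T α M A X).Finite ∧
            ((exceptional T α M A X).ncard : ℝ) ≤
              C * X ^ ((Module.finrank ℚ K : ℝ) * E q M + δ)) ∧
          (M ≤ (5 * q - 9) / (5 * q * (q - 2)) →
            Tendsto (fun X : ℝ => Real.log ((exceptional T α M A X).ncard : ℝ) / Real.log X)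
              atTop (𝓝 ((Module.finrank ℚ K : ℝ) * (1 - (q - 2) * M)))) := by
  intro K _ _ T hT q hq α hα0 hα M A hM hMA
  classical
  set d : ℝ := (Module.finrank ℚ K : ℝ) with hd
  have hdpos : 0 < d := by
    rw [hd]
    exact_mod_cast Module.finrank_pos
  have hqR : (3 : ℝ) ≤ q := by exact_mod_cast hq
  have hq0 : (0 : ℝ) < q := by linarith
  have hr0 : 0 < 1 / (q : ℝ) := by positivity
  have hM0 : 0 < M := by linarith
  -- comparison with the unnormalised quantities
  have hheight : ∀ x : K, d * height x = hr (aff x) := by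
    intro x
    unfold height
    rw [mul_div_cancel₀ _ hdpos.ne']
    rfl
  have hcount : ∀ x : K, d * counting T α x = NTc T α x := by
    intro x
    unfold counting NTc
    rw [mul_finsum]
    refine finsum_congr fun v => ?_
    rw [finsum_eq_if, finsum_eq_if]
    split_ifs with hv
    · rw [mul_zero]
    rw [Finset.mul_sum]
    refine Finset.sum_congr rfl fun l _ => ?_
    rw [mul_min_of_nonneg _ _ hdpos.le, mul_div_cancel₀ _ hdpos.ne', mul_div_cancel₀ _ hdpos.ne']
    rfl
  set Ω : Set K := {x : K | ∀ l, x * (α l).2 - 1 * (α l).1 ≠ 0} with hΩ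
  have hexc : ∀ X, exceptional T α M A X = win Ω height (counting T α) M A X := fun X => rfl
  have hE0 : 0 ≤ E q M := by
    have := Eq_pos hq M
    have h2 : 0 ≤ 12 / (7 * (q : ℝ)) := by positivity
    exact h2.trans this
  have hup := upper Ω height (counting T α) d M A (E q M) hdpos hM0 hMA hE0
    (fun y => eq1 q y) (fun y hy1 _ => eq1_le hq hM hy1) (by
      intro y hy1 hy2 δ hδ
      obtain ⟨D, hD, hmain⟩ := level hq T hT α hα0 hα (hM.trans hy1) (δ / d) (div_pos hδ hdpos)
      refine ⟨D, fun B hB => ?_⟩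
      have hB0 : 0 < B := by linarith
      have hlogB : 0 ≤ Real.log B := Real.log_nonneg hB
      have hbound : ∀ G : Finset K, (G : Set K) ⊆
          {x | x ∈ Ω ∧ Real.exp (height x) ≤ B ∧ counting T α x ≤ y⁻¹ * height x} →
          (G.card : ℝ) ≤ D * B ^ (d * eq1 q y + δ) := by
        intro G hG
        have h1 := hmain (d * Real.log B) (mul_nonneg hdpos.le hlogB) G ?_
        · refine h1.trans (le_of_eq ?_)
          rw [Real.rpow_def_of_pos hB0]
          congr 2
          field_simp
        · intro x hx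
          obtain ⟨g1, g2, g3⟩ := hG hx
          refine ⟨g1, ?_, ?_⟩
          · rw [← hcount, ← hheight]
            have := mul_le_mul_of_nonneg_left g3 hdpos.le
            linarith
          · rw [← hheight]
            refine mul_le_mul_of_nonneg_left ?_ hdpos.le
            rw [Real.le_log_iff_exp_le hB0]
            exact g2
      have hnn : 0 ≤ D * B ^ (d * eq1 q y + δ) := by positivity
      have hfin : {x | x ∈ Ω ∧ Real.exp (height x) ≤ B ∧
          counting T α x ≤ y⁻¹ * height x}.Finite := by
        by_contra hinf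
        obtain ⟨G, hGV, hGc⟩ := Set.Infinite.exists_subset_card_eq hinf
          (⌊D * B ^ (d * eq1 q y + δ)⌋₊ + 1)
        have h1 := hbound G hGV
        have h2 := Nat.lt_floor_add_one (D * B ^ (d * eq1 q y + δ))
        rw [hGc] at h1
        push_cast at h1
        linarith
      refine ⟨hfin, ?_⟩
      rw [Set.ncard_eq_toFinset_card _ hfin]
      exact hbound hfin.toFinset (by rw [Set.Finite.coe_toFinset]))
  refine ⟨fun δ hδ => ?_, fun hM2 => ?_⟩
  · obtain ⟨C, _, hC⟩ := hup δ hδ
    exact ⟨C, hC⟩
  · have hq2 : (0 : ℝ) < q - 2 := by linarith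
    have hden : (0 : ℝ) < 5 * q * (q - 2) := by positivity
    have hM3 : (q - 2) * M ≤ (5 * q - 9) / (5 * q) := by
      have h1 : (5 * (q : ℝ) - 9) / (5 * q * (q - 2)) = (5 * q - 9) / (5 * q) / (q - 2) := by
        field_simp
      rw [h1, le_div_iff₀ hq2] at hM2
      linarith
    have hM4 : 9 / (5 * (q : ℝ)) ≤ 1 - (q - 2) * M := by
      have h1 : (5 * (q : ℝ) - 9) / (5 * q) = 1 - 9 / (5 * q) := by field_simp
      rw [h1] at hM3
      linarith
    have hM5 : (q - 2) * M < 1 := by
      have : 0 < 9 / (5 * (q : ℝ)) := by positivity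
      linarith
    have hEM : E q M = 1 - (q - 2) * M := by
      unfold E
      refine max_eq_left ?_
      set r : ℝ := 1 / (q : ℝ) with hr
      have e1 : 9 / (5 * (q : ℝ)) = 9 / 5 * r := by rw [hr]; field_simp
      have e2 : 27 / (14 * (q : ℝ)) = 27 / 14 * r := by rw [hr]; field_simp
      have e3 : 12 / (7 * (q : ℝ)) = 12 / 7 * r := by rw [hr]; field_simp
      have e4 : 3 / (q : ℝ) = 3 * r := by rw [hr]; field_simp
      rw [e1] at hM4 ⊢
      rw [e2, e3, e4]
      split_ifs <;> linarith
    rw [hEM] at hup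
    have hncard : ∀ X, (exceptional T α M A X).ncard =
        (win Ω height (counting T α) M A X).ncard := fun X => rfl
    refine tendsto_log (fun δ hδ => ?_) (fun δ hδ => ?_)
    · obtain ⟨C, hC0, hC⟩ := hup δ hδ
      exact ⟨C, hC0, fun X hX => (hC X hX).2⟩
    · obtain ⟨C, X₀, hC, hX₀, hl⟩ := lowq hq T α hα0 hα M δ hM hM5 hδ
      refine ⟨C, X₀, hC, fun X hX => ?_⟩
      obtain ⟨G, hG, hcard⟩ := hl X hX
      rw [← hd] at hcard
      refine hcard.trans ?_
      have hX1 : 1 ≤ X := hX₀.trans hX
      have hX0 : 0 < X := by linarith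
      have hlog : 0 ≤ Real.log X := Real.log_nonneg hX1
      obtain ⟨C', _, hC'⟩ := hup 1 one_pos
      have hfin := (hC' X hX1).1
      have hsub : (G : Set K) ⊆ exceptional T α M A X := by
        intro x hx
        obtain ⟨g1, g2, g3, g4⟩ := hG x hx
        rw [← hd, ← hcount] at g2
        rw [← hcount, ← hheight] at g3
        rw [← hd, ← hheight] at g4
        refine ⟨g1, ?_, ?_, ?_⟩
        · rw [← Real.le_log_iff_exp_le hX0]
          exact le_of_mul_le_mul_left g2 hdpos
        · refine le_of_mul_le_mul_left ?_ hdpos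
          linarith
        · have h5 : M * Real.log X ≤ A * Real.log X := mul_le_mul_of_nonneg_right hMA hlog
          exact (le_of_mul_le_mul_left g4 hdpos).trans h5
      have h1 := Set.ncard_le_ncard hsub hfin
      rw [Set.ncard_coe_finset] at h1
      exact_mod_cast h1

end Pool.Agent.Results.MP_4d5ce1_nt.ExceptionsByCounting
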